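import Pool.Agent.Q260.OE.Stm2

set_option autoImplicit false

/-!
# Project OE (helper260), job NR3: the coefficients decide
-/

namespace Pool.Agent.Q211.OE

open Complex MeasureTheory Filter Topology Set
open Pool.Agent.Q286.BD (cl mz dif JJ difR JR S_nrh S_coef)
open Pool.Agent.Q260.GM (ph L2psi)
open Pool.Agent.Q260.OE

theorem mob_sum (k K : ℕ) (hk : 1 ≤ k) (hK : k ≤ K) :
    ∑ n ∈ Finset.Icc 1 K, ((ArithmeticFunction.moebius n : ℤ) : ℝ) * ((k / n : ℕ) : ℝ) = 1 := by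
  have h1 := ArithmeticFunction.sum_Ioc_mul_zeta_eq_sum (R := ℝ) (ArithmeticFunction.moebius : ArithmeticFunction ℝ) k
  rw [ArithmeticFunction.coe_moebius_mul_coe_zeta] at h1
  have h2 : ∑ n ∈ Finset.Ioc 0 k, ((1 : ArithmeticFunction ℝ) n) = 1 := by
    rw [Finset.sum_eq_single 1]
    · exact ArithmeticFunction.one_one
    · intro n _ hn
      exact ArithmeticFunction.one_apply_ne hn
    · intro h
      exact absurd (Finset.mem_Ioc.2 ⟨one_pos, hk⟩) h
  rw [h2] at h1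
  have h3 : ∑ n ∈ Finset.Icc 1 k, ((ArithmeticFunction.moebius n : ℤ) : ℝ) * ((k / n : ℕ) : ℝ) = 1 := h1.symm
  rw [← h3]
  symm
  refine Finset.sum_subset (Finset.Icc_subset_Icc_right hK) fun n hn hn2 => ?_
  rw [Finset.mem_Icc] at hn hn2
  have h4 : k / n = 0 := Nat.div_eq_of_lt (by omega)
  rw [h4, Nat.cast_zero, mul_zero]

/-- the error on `(1/K, 1]` -/
theorem dif_eq (N K : ℕ) (a : ℕ → ℝ) (hK : K ≤ N) (x : ℝ) (hx : 1 / (K : ℝ) < x) (hx1 : x ≤ 1) (hK0 : 1 ≤ K) :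
    dif N a x + (∑ n ∈ Finset.Icc 1 N, a n / n) / x =
      ∑ n ∈ Finset.Icc 1 K, (a n + ((ArithmeticFunction.moebius n : ℤ) : ℝ)) * ((⌊1 / x⌋₊ / n : ℕ) : ℝ) := by
  have hK1 : (0 : ℝ) < K := by exact_mod_cast hK0
  have hx0 : 0 < x := lt_trans (by positivity) hx
  have h1x : 1 / x < K := by
    rw [div_lt_iff₀ hx0]
    rw [div_lt_iff₀ hK1] at hx
    linarith
  have h1x1 : 1 ≤ 1 / x := by
    rw [le_div_iff₀ hx0]
    linarith
  have hfl1 : 1 ≤ ⌊1 / x⌋₊ := Nat.le_floor (by exact_mod_cast h1x1)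
  have hflK : ⌊1 / x⌋₊ ≤ K := by
    have := Nat.floor_le (a := 1 / x) (by positivity)
    have h2 : ((⌊1 / x⌋₊ : ℕ) : ℝ) < K := lt_of_le_of_lt this h1x
    exact_mod_cast h2.le
  have hfr : ∀ n : ℕ, Int.fract (1 / (n * x)) = 1 / (n * x) - ((⌊1 / x⌋₊ / n : ℕ) : ℝ) := by
    intro n
    have h3 : 1 / (n * x) = (1 / x) / n := by
      rw [div_div, mul_comm]
    rw [h3, ← Nat.floor_div_natCast, natCast_floor_eq_intCast_floor (by positivity)]
    rfl
  unfold dif
  rw [if_pos hx1]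
  have h4 : ∑ n ∈ Finset.Icc 1 N, a n * Int.fract (1 / (n * x)) = (∑ n ∈ Finset.Icc 1 N, a n / n) / x -
      ∑ n ∈ Finset.Icc 1 N, a n * ((⌊1 / x⌋₊ / n : ℕ) : ℝ) := by
    rw [Finset.sum_div, ← Finset.sum_sub_distrib]
    refine Finset.sum_congr rfl fun n _ => ?_
    rw [hfr, mul_sub, div_div]
    ring
  have h5 : ∑ n ∈ Finset.Icc 1 N, a n * ((⌊1 / x⌋₊ / n : ℕ) : ℝ) = ∑ n ∈ Finset.Icc 1 K, a n * ((⌊1 / x⌋₊ / n : ℕ) : ℝ) := by
    symm
    refine Finset.sum_subset (Finset.Icc_subset_Icc_right hK) fun n hn hn2 => ?_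
    rw [Finset.mem_Icc] at hn hn2
    have h4 : ⌊1 / x⌋₊ / n = 0 := Nat.div_eq_of_lt (by omega)
    rw [h4, Nat.cast_zero, mul_zero]
  rw [h4, h5]
  simp only [add_mul]
  rw [Finset.sum_add_distrib, mob_sum _ K hfl1 hflK]
  ring

theorem dif_meas (N : ℕ) (a : ℕ → ℝ) : Measurable (dif N a) := by
  unfold dif
  refine Measurable.sub (Measurable.ite measurableSet_Iic measurable_const measurable_const) ?_
  refine Finset.measurable_sum _ fun n _ => ?_
  exact ((measurable_const.div (measurable_id.const_mul _)).fract).const_mul _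

theorem dif_bd (N : ℕ) (a : ℕ → ℝ) (x : ℝ) : |dif N a x| ≤ 1 + ∑ n ∈ Finset.Icc 1 N, |a n| := by
  unfold dif
  refine le_trans (abs_sub _ _) (add_le_add ?_ (le_trans (Finset.abs_sum_le_sum_abs _ _) ?_))
  · split_ifs <;> simp
  · refine Finset.sum_le_sum fun n _ => ?_
    rw [abs_mul, abs_of_nonneg (Int.fract_nonneg (1 / (n * x)))]
    exact mul_le_of_le_one_right (abs_nonneg _) (Int.fract_lt_one _).le

theorem dif_intOn (N : ℕ) (a : ℕ → ℝ) (s t : ℝ) : IntegrableOn (dif N a) (Ioc s t) := by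
  refine Measure.integrableOn_of_bounded (M := 1 + ∑ n ∈ Finset.Icc 1 N, |a n|) ?_
    (dif_meas N a).aestronglyMeasurable (Eventually.of_forall fun x => ?_)
  · rw [Real.volume_Ioc]
    exact ENNReal.ofReal_ne_top
  · rw [Real.norm_eq_abs]
    exact dif_bd N a x

/-- the main estimate -/
theorem main_est (hcoef : S_coef) (N K : ℕ) (a : ℕ → ℝ) (hK : K ≤ N) (hK0 : 1 ≤ K)
    (hb : ∫ x in Ioc (0 : ℝ) 1, dif N a x = JJ N a) (hJ : JJ N a ≤ 1) :
    |JJ N a + (∑ n ∈ Finset.Icc 1 N, a n / n) * Real.log K| ≤ 1 / Real.sqrt K +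
      ∑ n ∈ Finset.Icc 1 K, |a n + ((ArithmeticFunction.moebius n : ℤ) : ℝ)| * K := by
  obtain ⟨C, -, hC⟩ := hcoef
  have hsq : IntegrableOn (fun x : ℝ => dif N a x ^ 2) (Ioi 0) := (hC N a (le_trans hK0 hK)).1
  have hK1 : (0 : ℝ) < K := by exact_mod_cast hK0
  have hK2 : (1 : ℝ) ≤ K := by exact_mod_cast hK0
  have hKi : 1 / (K : ℝ) ≤ 1 := by
    rw [div_le_one hK1]
    exact hK2
  have hKi0 : 0 < 1 / (K : ℝ) := by positivity
  set S : ℝ := ∑ n ∈ Finset.Icc 1 N, a n / n with hS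
  -- the splitting
  have hsplit : ∫ x in Ioc (0 : ℝ) 1, dif N a x = (∫ x in Ioc (0 : ℝ) (1 / K), dif N a x) +
      ∫ x in Ioc (1 / (K : ℝ)) 1, dif N a x := by
    rw [← Ioc_union_Ioc_eq_Ioc hKi0.le hKi]
    refine setIntegral_union ?_ measurableSet_Ioc (dif_intOn N a _ _) (dif_intOn N a _ _)
    rw [Set.disjoint_left]
    intro x hx hx'
    exact absurd hx.2 (not_le.2 hx'.1)
  -- the first part
  have h1 : |∫ x in Ioc (0 : ℝ) (1 / K), dif N a x| ≤ 1 / Real.sqrt K := by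
    have hsK : 0 < Real.sqrt K := Real.sqrt_pos.2 hK1
    have hsK2 : Real.sqrt K * Real.sqrt K = K := Real.mul_self_sqrt hK1.le
    have hsq' : IntegrableOn (fun x : ℝ => dif N a x ^ 2) (Ioc 0 (1 / K)) := hsq.mono_set Ioc_subset_Ioi_self
    have h2 : |∫ x in Ioc (0 : ℝ) (1 / K), dif N a x| ≤
        ∫ x in Ioc (0 : ℝ) (1 / K), (1 / (2 * Real.sqrt K) * dif N a x ^ 2 + Real.sqrt K / 2) := by
      rw [← Real.norm_eq_abs]
      refine norm_integral_le_of_norm_le ?_ (Eventually.of_forall fun x => ?_)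
      · exact (hsq'.const_mul _).add (integrableOn_const (by
          rw [Real.volume_Ioc]
          exact ENNReal.ofReal_ne_top))
      · rw [Real.norm_eq_abs]
        have h3 : 0 ≤ (|dif N a x| - Real.sqrt K) ^ 2 := sq_nonneg _
        have h4 : |dif N a x| ^ 2 = dif N a x ^ 2 := sq_abs _
        have h5 : 1 / (2 * Real.sqrt K) * dif N a x ^ 2 + Real.sqrt K / 2 - |dif N a x| =
            (|dif N a x| - Real.sqrt K) ^ 2 / (2 * Real.sqrt K) := by
          field_simp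
          rw [sub_sq, h4]
          ring
        have h6 : 0 ≤ (|dif N a x| - Real.sqrt K) ^ 2 / (2 * Real.sqrt K) := by positivity
        linarith
    have h3 : ∫ x in Ioc (0 : ℝ) (1 / K), (1 / (2 * Real.sqrt K) * dif N a x ^ 2 + Real.sqrt K / 2) =
        1 / (2 * Real.sqrt K) * (∫ x in Ioc (0 : ℝ) (1 / K), dif N a x ^ 2) + Real.sqrt K / 2 * (1 / K) := by
      rw [integral_add (hsq'.const_mul _) (integrableOn_const (by
          rw [Real.volume_Ioc]
          exact ENNReal.ofReal_ne_top)), integral_const_mul, setIntegral_const, Measure.real, Real.volume_Ioc,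
        sub_zero, ENNReal.toReal_ofReal hKi0.le, smul_eq_mul, mul_comm (1 / (K : ℝ))]
    have h4 : ∫ x in Ioc (0 : ℝ) (1 / K), dif N a x ^ 2 ≤ JJ N a := by
      unfold JJ
      refine setIntegral_mono_set hsq (Eventually.of_forall fun x => sq_nonneg _) ?_
      exact Ioc_subset_Ioi_self.eventuallyLE
    rw [h3] at h2
    refine h2.trans ?_
    have h5 : 1 / (2 * Real.sqrt K) * (∫ x in Ioc (0 : ℝ) (1 / K), dif N a x ^ 2) ≤ 1 / (2 * Real.sqrt K) * 1 :=
      mul_le_mul_of_nonneg_left (h4.trans hJ) (by positivity)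
    have h6 : Real.sqrt K / 2 * (1 / K) = 1 / (2 * Real.sqrt K) := by
      rw [div_mul_div_comm, mul_one, div_eq_div_iff (by positivity) (by positivity)]
      calc Real.sqrt K * (2 * Real.sqrt K) = 2 * (Real.sqrt K * Real.sqrt K) := by ring
        _ = 1 * (2 * K) := by rw [hsK2, one_mul]
    rw [h6]
    have h7 : 1 / Real.sqrt K = 1 / (2 * Real.sqrt K) * 1 + 1 / (2 * Real.sqrt K) := by
      field_simp
      norm_num
    rw [h7]
    linarith
  -- the second part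
  have hinv : IntegrableOn (fun x : ℝ => S / x) (Ioc (1 / (K : ℝ)) 1) := by
    have h2 : IntervalIntegrable (fun x : ℝ => S / x) volume (1 / (K : ℝ)) 1 := by
      simp only [div_eq_mul_inv]
      refine (intervalIntegral.intervalIntegrable_inv (fun x hx => ?_) continuousOn_id).const_mul _
      have h4 : (1 : ℝ) * (K : ℝ)⁻¹ ≤ 1 := by
        rw [one_mul, ← one_div]
        exact hKi
      rw [uIcc_of_le h4, mem_Icc] at hx
      have h5 : 0 < (1 : ℝ) * (K : ℝ)⁻¹ := by positivity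
      exact (lt_of_lt_of_le h5 hx.1).ne'
    exact (intervalIntegrable_iff_integrableOn_Ioc_of_le hKi).1 h2
  have hinv2 : ∫ x in Ioc (1 / (K : ℝ)) 1, S / x = S * Real.log K := by
    rw [← intervalIntegral.integral_of_le hKi]
    simp only [div_eq_mul_inv]
    rw [intervalIntegral.integral_const_mul, integral_inv_of_pos (by positivity) one_pos]
    congr 2
    field_simp
  have h2 : |∫ x in Ioc (1 / (K : ℝ)) 1, (dif N a x + S / x)| ≤
      ∑ n ∈ Finset.Icc 1 K, |a n + ((ArithmeticFunction.moebius n : ℤ) : ℝ)| * K := by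
    rw [← Real.norm_eq_abs]
    have h3 := norm_setIntegral_le_of_norm_le_const (μ := volume) (s := Ioc (1 / (K : ℝ)) 1)
      (f := fun x : ℝ => dif N a x + S / x)
      (C := ∑ n ∈ Finset.Icc 1 K, |a n + ((ArithmeticFunction.moebius n : ℤ) : ℝ)| * K) (by
        rw [Real.volume_Ioc]
        exact ENNReal.ofReal_lt_top) (fun x hx => by
        rw [Real.norm_eq_abs, dif_eq N K a hK x hx.1 hx.2 hK0]
        refine le_trans (Finset.abs_sum_le_sum_abs _ _) (Finset.sum_le_sum fun n _ => ?_)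
        rw [abs_mul]
        refine mul_le_mul_of_nonneg_left ?_ (abs_nonneg _)
        rw [Nat.abs_cast]
        have hx0 : 0 < x := lt_trans hKi0 hx.1
        have h1x : 1 / x < K := by
          rw [div_lt_iff₀ hx0]
          have := hx.1
          rw [div_lt_iff₀ hK1] at this
          linarith
        have h4 : ((⌊1 / x⌋₊ / n : ℕ) : ℝ) ≤ ((⌊1 / x⌋₊ : ℕ) : ℝ) := by exact_mod_cast Nat.div_le_self _ _
        exact le_trans h4 (le_trans (Nat.floor_le (by positivity)) h1x.le))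
    refine h3.trans ?_
    rw [Measure.real, Real.volume_Ioc, ENNReal.toReal_ofReal (by linarith)]
    refine mul_le_of_le_one_right ?_ (by linarith)
    exact Finset.sum_nonneg fun n _ => mul_nonneg (abs_nonneg _) hK1.le
  rw [integral_add (dif_intOn N a _ _) hinv, hinv2] at h2
  rw [← hb, hsplit]
  calc |(∫ x in Ioc (0 : ℝ) (1 / K), dif N a x) + (∫ x in Ioc (1 / (K : ℝ)) 1, dif N a x) + S * Real.log K| =
      |(∫ x in Ioc (0 : ℝ) (1 / K), dif N a x) + ((∫ x in Ioc (1 / (K : ℝ)) 1, dif N a x) + S * Real.log K)| := by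
        rw [add_assoc]
    _ ≤ _ := (abs_add_le _ _).trans (add_le_add h1 h2)

theorem t_NR3 (hnrh : S_nrh) (hcoef : S_coef) (hBST : S_BST) : S_NR3 := by
  intro a hbest hlim
  by_contra hRH
  obtain ⟨c, hc, hcJ⟩ := hnrh hRH
  obtain ⟨m, hm⟩ := exists_nat_gt (max 1 (6 / c))
  have hm1 : (1 : ℝ) < m := lt_of_le_of_lt (le_max_left _ _) hm
  have hmc : 6 / c < m := lt_of_le_of_lt (le_max_right _ _) hm
  have hm0 : (0 : ℝ) < m := by linarith
  have hm2 : 1 ≤ m := by exact_mod_cast hm1.le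
  have hlimK : ∀ K : ℕ, Tendsto (fun N : ℕ => ∑ n ∈ Finset.Icc 1 K,
      |a N n + ((ArithmeticFunction.moebius n : ℤ) : ℝ)| * K) atTop (𝓝 0) := by
    intro K
    have h1 : Tendsto (fun N : ℕ => ∑ n ∈ Finset.Icc 1 K,
        |a N n + ((ArithmeticFunction.moebius n : ℤ) : ℝ)| * K) atTop (𝓝 (∑ n ∈ Finset.Icc 1 K, (0 : ℝ))) := by
      refine tendsto_finsetSum _ fun n hn => ?_
      have h2 := ((hlim n (Finset.mem_Icc.1 hn).1).add_const ((ArithmeticFunction.moebius n : ℤ) : ℝ)).abs.mul_const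
        (K : ℝ)
      rw [neg_add_cancel, abs_zero, zero_mul] at h2
      exact h2
    rwa [Finset.sum_const_zero] at h1
  have e1 := (hlimK (m ^ 2)).eventually (gt_mem_nhds (show (0 : ℝ) < c / 8 by positivity))
  have e2 := (hlimK (m ^ 4)).eventually (gt_mem_nhds (show (0 : ℝ) < c / 8 by positivity))
  obtain ⟨N, hN1, hN2, hN3⟩ := (e1.and (e2.and (eventually_ge_atTop (m ^ 4)))).exists
  obtain ⟨hb, hJ⟩ := hBST.2.1 N (a N) (hbest N)
  have h24 : m ^ 2 ≤ m ^ 4 := Nat.pow_le_pow_right hm2 (by norm_num)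
  have h1 := main_est hcoef N (m ^ 2) (a N) (h24.trans hN3) (Nat.one_le_pow _ _ hm2) hb hJ
  have h2 := main_est hcoef N (m ^ 4) (a N) hN3 (Nat.one_le_pow _ _ hm2) hb hJ
  have hs2 : Real.sqrt ((m ^ 2 : ℕ) : ℝ) = m := by
    rw [Nat.cast_pow]
    exact Real.sqrt_sq hm0.le
  have hs4 : Real.sqrt ((m ^ 4 : ℕ) : ℝ) = (m : ℝ) ^ 2 := by
    rw [Nat.cast_pow, show (m : ℝ) ^ 4 = ((m : ℝ) ^ 2) ^ 2 by ring]
    exact Real.sqrt_sq (by positivity)
  have hl2 : Real.log ((m ^ 2 : ℕ) : ℝ) = 2 * Real.log m := by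
    rw [Nat.cast_pow, Real.log_pow]
    norm_num
  have hl4 : Real.log ((m ^ 4 : ℕ) : ℝ) = 4 * Real.log m := by
    rw [Nat.cast_pow, Real.log_pow]
    norm_num
  rw [hs2, hl2] at h1
  rw [hs4, hl4] at h2
  set S : ℝ := ∑ n ∈ Finset.Icc 1 N, a N n / n with hS
  have h3 := (abs_le.1 h1).2
  have h4 := (abs_le.1 h2).1
  have h5 := hcJ N (a N)
  have h6 : 1 / (m : ℝ) ^ 2 ≤ 1 / m := by
    apply one_div_le_one_div_of_le hm0
    nlinarith
  have h7 : 1 / (m : ℝ) < c / 6 := by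
    rw [div_lt_div_iff₀ hm0 (by norm_num)]
    rw [div_lt_iff₀ hc] at hmc
    linarith
  linarith

end Pool.Agent.Q211.OE
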