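import Pool.Agent.Q260.OE.Stm2

set_option autoImplicit false

/-!
# Project OE (helper260), job NT: natural dilations as real dilations
-/

namespace Pool.Agent.Q211.OE

open Complex MeasureTheory Filter Topology Set
open Pool.Agent.Q286.BD (cl mz dif JJ difR JR)
open Pool.Agent.Q260.GM (ph L2psi)
open Pool.Agent.Q260.OE

theorem nt_sum {M : Type} [AddCommMonoid M] (N : ℕ) (a : ℕ → ℝ) (h : ℝ → ℝ → M) (h0 : ∀ θ, h θ 0 = 0)
    (hadd : ∀ θ b c, h θ (b + c) = h θ b + h θ c) :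
    (nt N a).sum h = ∑ n ∈ Finset.Icc 1 N, h (1 / (n : ℝ)) (a n) := by
  unfold nt
  rw [← Finsupp.sum_finsetSum_index h0 hadd]
  exact Finset.sum_congr rfl fun n _ => Finsupp.sum_single_index (h0 _)

theorem nt_difR (N : ℕ) (a : ℕ → ℝ) : difR (nt N a) = dif N a := by
  funext x
  unfold difR dif
  rw [nt_sum N a (fun θ c => c * Int.fract (θ / x)) (fun θ => zero_mul _) (fun θ b c => add_mul _ _ _)]
  congr 1
  refine Finset.sum_congr rfl fun n _ => ?_
  rw [div_div]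

theorem nt_TT (N : ℕ) (a : ℕ → ℝ) (t : ℝ) : TT (nt N a) t = Tn N a t := by
  unfold TT Tn
  rw [nt_sum N a (fun θ c => (c : ℂ) * (θ : ℂ) ^ (cl t)) (fun θ => by rw [ofReal_zero, zero_mul])
    (fun θ b c => by rw [ofReal_add, add_mul])]
  congr 2
  refine Finset.sum_congr rfl fun n _ => ?_
  congr 1
  rw [ofReal_div, ofReal_one, ofReal_natCast, one_div, Complex.inv_cpow _ _ (by
    rw [Complex.natCast_arg]
    exact Real.pi_pos.ne), Complex.cpow_neg]

theorem nt_supp (N : ℕ) (a : ℕ → ℝ) : ∀ θ ∈ (nt N a).support, 1 / (N : ℝ) ≤ θ ∧ θ ≤ 1 := by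
  classical
  intro θ hθ
  have h1 := Finsupp.support_finsetSum (s := Finset.Icc 1 N) (f := fun n => Finsupp.single (1 / (n : ℝ)) (a n)) hθ
  rw [Finset.mem_biUnion] at h1
  obtain ⟨n, hn, hn2⟩ := h1
  have h2 := Finsupp.support_single_subset hn2
  rw [Finset.mem_singleton] at h2
  rw [Finset.mem_Icc] at hn
  have h3 : (0 : ℝ) < n := by exact_mod_cast hn.1
  have h4 : (1 : ℝ) ≤ n := by exact_mod_cast hn.1
  have h5 : (n : ℝ) ≤ N := by exact_mod_cast hn.2
  rw [h2]
  exact ⟨one_div_le_one_div_of_le h3 h5, by rw [div_le_one h3]; exact h4⟩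

theorem t_NT : S_NT := by
  intro N a
  have h1 := nt_difR N a
  refine ⟨h1, ?_, ?_, nt_TT N a, nt_supp N a⟩
  · unfold JR JJ
    rw [h1]
  · funext w
    unfold De Dn
    rw [h1]

end Pool.Agent.Q211.OE
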