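import Pool.Agent.Q260.OE.Stm
import Pool.Agent.Helper625.Planch

set_option autoImplicit false

/-!
# Project OE (helper260), job PLG: Plancherel on the half line
-/

namespace Pool.Agent.Q211.OE

open Complex MeasureTheory Filter Topology Set
open Pool.Agent.Q260.OE
open scoped FourierTransform Real

theorem t_PLG : S_PLG := by
  intro h hint hsq
  set G : ℝ → ℂ := (Ioi (0 : ℝ)).indicator h with hG
  have hGi : Integrable G := (integrable_indicator_iff measurableSet_Ioi).2 hint
  have hnorm : (fun w => ‖G w‖ ^ 2) = (Ioi (0 : ℝ)).indicator (fun w => ‖h w‖ ^ 2) := by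
    funext w
    rw [hG]
    by_cases hw : w ∈ Ioi (0 : ℝ)
    · rw [indicator_of_mem hw, indicator_of_mem hw]
    · rw [indicator_of_notMem hw, indicator_of_notMem hw, norm_zero]
      norm_num
  have hGs : Integrable (fun w => ‖G w‖ ^ 2) := by
    rw [hnorm]
    exact (integrable_indicator_iff measurableSet_Ioi).2 hsq
  have hGm : MemLp G 2 := (memLp_two_iff_integrable_sq_norm hGi.aestronglyMeasurable).2 hGs
  obtain ⟨hm, hpl⟩ := Pool.Agent.Helper625.Planch.plancherel G hGi hGm
  have hFi : Integrable (fun w : ℝ => ‖𝓕 G w‖ ^ 2) :=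
    (memLp_two_iff_integrable_sq_norm hm.aestronglyMeasurable).1 hm
  have hpi := Real.pi_pos
  have e0 : ∀ t : ℝ, 𝓕 G (t / (2 * π)) = ∫ w in Ioi (0 : ℝ), h w * cexp (-(t * w * I)) := by
    intro t
    rw [Real.fourier_real_eq_integral_exp_smul, ← integral_indicator measurableSet_Ioi]
    refine integral_congr_ae (Eventually.of_forall fun w => ?_)
    show _ = (Ioi (0 : ℝ)).indicator (fun w : ℝ => h w * cexp (-(t * w * I))) w
    rw [hG]
    by_cases hw : w ∈ Ioi (0 : ℝ)
    · simp only [indicator_of_mem hw, smul_eq_mul]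
      rw [mul_comm]
      congr 2
      have h2 : (-2 * π * w * (t / (2 * π)) : ℝ) = -(t * w) := by
        field_simp
      rw [h2]
      push_cast
      ring
    · simp only [indicator_of_notMem hw, smul_zero]
  have e1 : ∀ t : ℝ, ‖∫ w in Ioi (0 : ℝ), h w * cexp (-(t * w * I))‖ ^ 2 =
      (fun w : ℝ => ‖𝓕 G w‖ ^ 2) (t / (2 * π)) := by
    intro t
    simp only
    rw [e0]
  constructor
  · simp only [e1]
    exact hFi.comp_div (by positivity)
  · simp only [e1]
    rw [Measure.integral_comp_div (fun w : ℝ => ‖𝓕 G w‖ ^ 2) (2 * π), hpl, abs_of_pos (by positivity), smul_eq_mul,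
      hnorm, integral_indicator measurableSet_Ioi]
    field_simp

end Pool.Agent.Q211.OE
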